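import Pool.Agent.Work.MP_93d788_an.Final

/-!
# MP_93d788_an, Q1 (Marciszewski-Pol): the answer is no

Q1 asks whether `Bo(C(K),w) = Bo(C(K))` implies `Bo(C(K),T_p) = Bo(C(K))` for a compact space `K`.
We prove in ZFC that it does not, with a zero-dimensional compact Hausdorff space in every universe.

* `C(K, ℝ)` is Mathlib's space of real-valued continuous functions on `K`; its topology, hence
  `borel C(K, ℝ)`, is that of the supremum norm, because `K` is compact.
* `weakTopology K` is the weak topology `w = σ(C(K), C(K)*)`; it is the topology of Mathlib's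
  `WeakSpace` (`weakTopology_eq`).
* `pointwiseTopology K` is the topology `T_p` of pointwise convergence on `K`; it is induced by the
  product topology of `K → ℝ` (`pointwiseTopology_eq`).
* `@borel C(K, ℝ) τ` is the sigma-algebra generated by the `τ`-open sets.
-/

set_option autoImplicit false

namespace Pool.Agent.Results.MP_93d788_an.WeakWithoutPointwise

open MeasureTheory Set TopologicalSpace
open scoped Topology

universe u v

/-- The weak topology `w = σ(C(K), C(K)*)` of problem.md: the coarsest topology on `C(K)` for which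
every norm continuous linear functional `φ : C(K) → ℝ` is continuous. -/
@[reducible] def weakTopology (K : Type u) [TopologicalSpace K] [CompactSpace K] :
    TopologicalSpace C(K, ℝ) :=
  ⨅ φ : C(K, ℝ) →L[ℝ] ℝ, TopologicalSpace.induced (fun f : C(K, ℝ) => φ f) inferInstance

/-- The topology `T_p` of pointwise convergence on `K`: the coarsest topology on `C(K)` for which
every evaluation `f ↦ f x`, `x ∈ K`, is continuous. -/
@[reducible] def pointwiseTopology (K : Type u) [TopologicalSpace K] :
    TopologicalSpace C(K, ℝ) :=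
  ⨅ x : K, TopologicalSpace.induced (fun f : C(K, ℝ) => f x) inferInstance

/-! ### The two topologies in other words -/

lemma weakTopology_eq_induced (K : Type u) [TopologicalSpace K] [CompactSpace K] :
    weakTopology K = TopologicalSpace.induced
      (fun f : C(K, ℝ) => fun φ : C(K, ℝ) →L[ℝ] ℝ => φ f) inferInstance := by
  simp only [weakTopology, Pi.topologicalSpace, induced_iInf, induced_compose]
  rfl

lemma pointwiseTopology_eq (K : Type u) [TopologicalSpace K] :
    pointwiseTopology K =
      TopologicalSpace.induced (fun f : C(K, ℝ) => (⇑f : K → ℝ)) inferInstance := by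
  simp only [pointwiseTopology, Pi.topologicalSpace, induced_iInf, induced_compose]
  rfl

/-- `weakTopology` is the topology of Mathlib's `WeakSpace` -/
lemma weakTopology_eq (K : Type u) [TopologicalSpace K] [CompactSpace K] :
    weakTopology K = TopologicalSpace.induced (toWeakSpace ℝ C(K, ℝ)) inferInstance := by
  rw [weakTopology_eq_induced]
  exact (@induced_compose C(K, ℝ) (WeakSpace ℝ C(K, ℝ)) ((C(K, ℝ) →L[ℝ] ℝ) → ℝ) inferInstance
    (toWeakSpace ℝ C(K, ℝ)) (fun x y => topDualPairing ℝ C(K, ℝ) y x)).symm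

/-! ### Transfer along a homeomorphism -/

section Transfer

set_option linter.unusedSectionVars false

variable {X : Type u} {Y : Type v} [TopologicalSpace X] [TopologicalSpace Y]
  [CompactSpace X] [CompactSpace Y]

/-- composition with a homeomorphism -/
def pull (e : X ≃ₜ Y) : C(X, ℝ) →L[ℝ] C(Y, ℝ) where
  toLinearMap := (ContinuousMap.compRightAlgHom ℝ ℝ (e.symm : C(Y, X))).toLinearMap
  cont := ContinuousMap.compRightAlgHom_continuous ℝ ℝ _

lemma pull_apply (e : X ≃ₜ Y) (f : C(X, ℝ)) (y : Y) : pull e f y = f (e.symm y) := rfl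

/-- the bijection between the spaces of functions -/
def pullE (e : X ≃ₜ Y) : C(X, ℝ) ≃ C(Y, ℝ) where
  toFun := pull e
  invFun := pull e.symm
  left_inv f := by ext x; simp [pull_apply]
  right_inv f := by ext x; simp [pull_apply]

lemma pullE_apply (e : X ≃ₜ Y) (f : C(X, ℝ)) : pullE e f = pull e f := rfl

lemma pull_pull (e : X ≃ₜ Y) (f : C(X, ℝ)) : pull e.symm (pull e f) = f := (pullE e).left_inv f

lemma norm_eq_induced (e : X ≃ₜ Y) :
    (inferInstance : TopologicalSpace C(X, ℝ)) =
      TopologicalSpace.induced (pull e) inferInstance := by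
  apply le_antisymm
  · exact continuous_iff_le_induced.1 (pull e).continuous
  · have h : Continuous[TopologicalSpace.induced (pull e) inferInstance, inferInstance]
        (fun f : C(X, ℝ) => pull e.symm (pull e f)) :=
      @Continuous.comp _ _ _ (TopologicalSpace.induced (pull e) inferInstance) _ _
        _ _ (pull e.symm).continuous continuous_induced_dom
    simp only [pull_pull] at h
    exact continuous_id_iff_le.1 h

lemma weak_eq_induced (e : X ≃ₜ Y) :
    weakTopology X = TopologicalSpace.induced (pull e) (weakTopology Y) := by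
  simp only [weakTopology, induced_iInf, induced_compose]
  apply le_antisymm
  · refine le_iInf fun ψ => ?_
    refine (iInf_le _ (ψ.comp (pull e))).trans (le_of_eq ?_)
    rfl
  · refine le_iInf fun φ => ?_
    refine (iInf_le _ (φ.comp (pull e.symm))).trans (le_of_eq ?_)
    congr 1
    funext f
    simp only [Function.comp_apply, ContinuousLinearMap.comp_apply, pull_pull]

lemma pointwise_eq_induced (e : X ≃ₜ Y) :
    pointwiseTopology X = TopologicalSpace.induced (pull e) (pointwiseTopology Y) := by
  simp only [pointwiseTopology, induced_iInf, induced_compose]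
  apply le_antisymm
  · refine le_iInf fun y => ?_
    refine (iInf_le _ (e.symm y)).trans (le_of_eq ?_)
    rfl
  · refine le_iInf fun x => ?_
    refine (iInf_le _ (e x)).trans (le_of_eq ?_)
    congr 1
    funext f
    simp only [Function.comp_apply, pull_apply, Homeomorph.symm_apply_apply]

end Transfer

/-! ### The space in the lowest universe -/

section Base

open Pool.Agent.MP93d788

/-- every norm open set is a countable union of differences of weakly open sets -/
lemma weak_differences (U : Set C(K, ℝ)) (hU' : IsOpen U) :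
    ∃ G H : ℕ → Set C(K, ℝ), (∀ n, IsOpen[tw] (G n) ∧ IsOpen[tw] (H n)) ∧
      U = ⋃ n, G n \ H n := by
  classical
  choose g hg using exists_gen
  let δ : ℕ → ℝ := fun i => 1 / ((i : ℝ) + 1)
  have hδ : ∀ i, 0 < δ i := fun i => by positivity
  let D : ℕ → ℕ → ℕ → Set (Finset S) := fun i m j =>
    {A | A.card = m ∧ Metric.closedBall (g A j) (δ i) ⊆ U}
  let O1 : ℕ → ℕ → ℕ → ℕ → Set C(K, ℝ) := fun i l m j =>
    ⋃ A ∈ D i m j, {f : C(K, ℝ) | (A : Set S) ⊆ Aset (δ l) f}
  let O2 : ℕ → ℕ → ℕ → ℕ → Set C(K, ℝ) := fun i l m j =>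
    ⋃ A ∈ D i m j, ({f : C(K, ℝ) | (A : Set S) ⊆ Aset (δ l) f} ∩
      (Metric.closedBall (g A j) (δ i))ᶜ)
  let N : ℕ → ℕ → Set C(K, ℝ) := fun l m =>
    ⋃ A ∈ {A : Finset S | A.card = m + 1}, {f : C(K, ℝ) | (A : Set S) ⊆ Aset (δ l) f}
  have hO1 : ∀ i l m j, IsOpen[tw] (O1 i l m j) := by
    intro i l m j
    exact @isOpen_iUnion _ _ tw _ fun A => @isOpen_iUnion _ _ tw _ fun _ =>
      isOpen_subset_Aset _ _
  have hO2 : ∀ i l m j, IsOpen[tw] (O2 i l m j) := by
    intro i l m j
    exact @isOpen_iUnion _ _ tw _ fun A => @isOpen_iUnion _ _ tw _ fun _ =>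
      @IsOpen.inter _ tw _ _ (isOpen_subset_Aset _ _) (isOpen_compl_closedBall _ (hδ i))
  have hN : ∀ l m, IsOpen[tw] (N l m) := by
    intro l m
    exact @isOpen_iUnion _ _ tw _ fun A => @isOpen_iUnion _ _ tw _ fun _ =>
      isOpen_subset_Aset _ _
  have hUeq : U = ⋃ i, ⋃ l, ⋃ m, ⋃ j, (O1 i l m j \ (N l m ∪ O2 i l m j)) := by
    apply Subset.antisymm
    · intro f hf
      obtain ⟨r, hr, hball⟩ := Metric.isOpen_iff.1 hU' f hf
      obtain ⟨i, hi⟩ := exists_nat_one_div_lt (half_pos hr)
      have hi' : 2 * δ i < r := by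
        have : δ i < r / 2 := hi
        linarith
      obtain ⟨n, F, hFT, hF⟩ := unif_dep f {s | ∃ ε, 0 < ε ∧ s ∈ Aset ε f}
        (fun x y h1 h2 => key f x y h1 h2) (half_pos (hδ i))
      obtain ⟨l, hl⟩ : ∃ l : ℕ, (F : Set S) ⊆ Aset (δ l) f := by
        have h1 : ∀ s ∈ F, ∃ l : ℕ, s ∈ Aset (δ l) f := by
          intro s hs
          obtain ⟨ε, hε, hsε⟩ := hFT hs
          obtain ⟨l, hl⟩ := exists_nat_one_div_lt hε
          exact ⟨l, Aset_mono (le_of_lt hl) f hsε⟩
        choose! L hL using h1
        refine ⟨F.sup L, fun s hs => ?_⟩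
        refine Aset_mono ?_ f (hL s hs)
        have : (L s : ℝ) ≤ (F.sup L : ℕ) := by exact_mod_cast Finset.le_sup (f := L) hs
        simp only [δ]
        gcongr
      set A : Finset S := (finite_Aset (hδ l) f).toFinset with hA
      have hAeq : (A : Set S) = Aset (δ l) f := by rw [hA]; simp
      have hFA : (F : Set S) ⊆ A := by rw [hAeq]; exact hl
      obtain ⟨q, hq⟩ := approx f A n (half_pos (hδ i)) (fun x y hxy =>
        hF x y ⟨hxy.1, fun s hs => hxy.2 s (hFA hs)⟩)
      obtain ⟨j, hj⟩ := hg A n q
      have hdist : dist f (g A j) ≤ δ i := by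
        rw [hj]
        refine hq.trans (le_of_eq ?_)
        ring
      have hAD : A ∈ D i A.card j := by
        refine ⟨rfl, fun h hh => hball ?_⟩
        rw [Metric.mem_closedBall] at hh
        rw [Metric.mem_ball]
        calc dist h f ≤ dist h (g A j) + dist (g A j) f := dist_triangle _ _ _
          _ ≤ δ i + δ i := by rw [dist_comm (g A j) f]; exact add_le_add hh hdist
          _ < r := by linarith
      simp only [mem_iUnion]
      refine ⟨i, l, A.card, j, ?_, ?_⟩
      · simp only [O1, mem_iUnion]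
        exact ⟨A, hAD, hAeq.le⟩
      · rintro (h | h)
        · simp only [N, mem_iUnion, mem_ofPred_eq] at h
          obtain ⟨B, hB, hBf⟩ := h
          have hBA : B ⊆ A := by
            rw [← Finset.coe_subset, hAeq]; exact hBf
          have := Finset.card_le_card hBA
          omega
        · simp only [O2, mem_iUnion, mem_inter_iff, mem_ofPred_eq] at h
          obtain ⟨B, hB, hBf, hBc⟩ := h
          have hBA : B ⊆ A := by
            rw [← Finset.coe_subset, hAeq]; exact hBf
          have hBA' : B = A := Finset.eq_of_subset_of_card_le hBA (le_of_eq hB.1.symm)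
          rw [hBA'] at hBc
          exact hBc (Metric.mem_closedBall.2 hdist)
    · intro f hf
      simp only [mem_iUnion] at hf
      obtain ⟨i, l, m, j, h1, h2⟩ := hf
      simp only [O1, mem_iUnion] at h1
      obtain ⟨A, hAD, hAf⟩ := h1
      refine hAD.2 ?_
      by_contra hno
      refine h2 (Or.inr ?_)
      simp only [O2, mem_iUnion]
      exact ⟨A, hAD, hAf, hno⟩
  obtain ⟨c, hc⟩ := exists_surjective_nat (ℕ × ℕ × ℕ × ℕ)
  refine ⟨fun n => O1 (c n).1 (c n).2.1 (c n).2.2.1 (c n).2.2.2,
    fun n => N (c n).2.1 (c n).2.2.1 ∪ O2 (c n).1 (c n).2.1 (c n).2.2.1 (c n).2.2.2,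
    fun n => ⟨hO1 _ _ _ _, @IsOpen.union _ _ _ tw (hN _ _) (hO2 _ _ _ _)⟩, ?_⟩
  rw [hUeq]
  ext f
  simp only [mem_iUnion]
  constructor
  · rintro ⟨i, l, m, j, h⟩
    obtain ⟨n, hn⟩ := hc (i, l, m, j)
    exact ⟨n, by rw [hn]; exact h⟩
  · rintro ⟨n, h⟩
    exact ⟨_, _, _, _, h⟩

/-- no countable family of pointwise Borel sets separates the `0`-`1` valued functions -/
lemma pointwise_separation (A : ℕ → Set C(K, ℝ))
    (hA : ∀ n, MeasurableSet[@borel C(K, ℝ) tp] (A n)) :
    ∃ f g : C(K, ℝ), f ≠ g ∧ (∀ x, f x = 0 ∨ f x = 1) ∧ (∀ x, g x = 0 ∨ g x = 1) ∧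
      ∀ n, (f ∈ A n ↔ g ∈ A n) := by
  choose G hG h using fun n => dec (hA n)
  let G' : ℕ → Set C(K, ℝ) := fun m => G (Nat.unpair m).1 (Nat.unpair m).2
  have hG' : ∀ m, IsOpen[tp] (G' m) := fun m => hG _ _
  have h01 : ∀ t x, xf t x = 0 ∨ xf t x = 1 := by
    intro t x
    rw [xf_apply]
    split_ifs
    · exact Or.inr rfl
    · exact Or.inl rfl
  refine ⟨xf (lim G' true), xf (lim G' false), ?_, h01 _, h01 _, ?_⟩
  · intro he
    have hd : dist (xf (lim G' true)) (xf (lim G' false)) < 1 := by
      rw [he, dist_self]; exact one_pos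
    have h2 := eq_of_dist_lt hd
    have h3 : lab (lim G' true) = lab (lim G' false) := by rw [h2]
    simp [lab, lim] at h3
  · intro n
    refine h n _ _ fun k => ?_
    have h4 := lim_mem G' hG' true false (Nat.pair n k)
    have h5 := lim_mem G' hG' false true (Nat.pair n k)
    simp only [G', Nat.unpair_pair] at h4 h5
    exact ⟨h4, h5⟩

end Base

/-- **Q1 of MP_93d788_an has a negative answer** (ZFC, every universe).  There is a compact
Hausdorff (even zero-dimensional) space `K` such that

* `Bo(C(K),w) = Bo(C(K))`, while `Bo(C(K),T_p)` is a proper subfamily of `Bo(C(K))`;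
* more precisely, every norm open set is a countable union of differences `G n \ H n` of weakly
  open sets, while for any countably many members `A n` of `Bo(C(K),T_p)` there are two different
  functions `f, g` in `C(K)`, with values `0` and `1` only, which lie in the same sets `A n`. -/
theorem result : ∃ (K : Type u) (_ : TopologicalSpace K) (_ : CompactSpace K) (_ : T2Space K),
    TotallyDisconnectedSpace K ∧
    @borel C(K, ℝ) (weakTopology K) = borel C(K, ℝ) ∧
    @borel C(K, ℝ) (pointwiseTopology K) < borel C(K, ℝ) ∧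
    (∀ U : Set C(K, ℝ), IsOpen U → ∃ G H : ℕ → Set C(K, ℝ),
      (∀ n, IsOpen[weakTopology K] (G n) ∧ IsOpen[weakTopology K] (H n)) ∧
        U = ⋃ n, G n \ H n) ∧
    (∀ A : ℕ → Set C(K, ℝ),
      (∀ n, MeasurableSet[@borel C(K, ℝ) (pointwiseTopology K)] (A n)) →
        ∃ f g : C(K, ℝ), f ≠ g ∧ (∀ x, f x = 0 ∨ f x = 1) ∧ (∀ x, g x = 0 ∨ g x = 1) ∧
          ∀ n, (f ∈ A n ↔ g ∈ A n)) := by
  classical
  let Y := Pool.Agent.MP93d788.K
  let e : ULift.{u} Y ≃ₜ Y := Homeomorph.ulift
  have hw : Pool.Agent.MP93d788.tw = weakTopology Y := (weakTopology_eq_induced Y).symm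
  have hp : Pool.Agent.MP93d788.tp = pointwiseTopology Y := (pointwiseTopology_eq Y).symm
  have bn : borel C(ULift.{u} Y, ℝ) = (borel C(Y, ℝ)).comap (pull e) := by
    rw [← borel_comap]
    exact congrArg (@borel C(ULift.{u} Y, ℝ)) (norm_eq_induced e)
  have bw : @borel C(ULift.{u} Y, ℝ) (weakTopology (ULift.{u} Y)) =
      (@borel C(Y, ℝ) (weakTopology Y)).comap (pull e) := by
    rw [weak_eq_induced e, borel_comap]
  have bp : @borel C(ULift.{u} Y, ℝ) (pointwiseTopology (ULift.{u} Y)) =
      (@borel C(Y, ℝ) (pointwiseTopology Y)).comap (pull e) := by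
    rw [pointwise_eq_induced e, borel_comap]
  have hsurj : Function.Surjective (pull e) := (pullE e).surjective
  have hle : @borel C(Y, ℝ) (pointwiseTopology Y) ≤ borel C(Y, ℝ) := by
    apply borel_anti
    rw [pointwiseTopology_eq]
    exact continuous_iff_le_induced.1 (continuous_pi fun x => continuous_eval_const x)
  have htd : TotallyDisconnectedSpace Y := Subtype.totallyDisconnectedSpace
  refine ⟨ULift.{u} Y, inferInstance, inferInstance, inferInstance,
    e.symm.totallyDisconnectedSpace, ?_, ?_, ?_, ?_⟩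
  · rw [bw, bn, ← hw, Pool.Agent.MP93d788.weak_eq]
  · rw [bp, bn]
    refine lt_of_le_of_ne (MeasurableSpace.comap_mono hle) fun heq => ?_
    refine Pool.Agent.MP93d788.pointwise_ne (le_antisymm (by rw [hp]; exact hle) ?_)
    intro s hs
    have h1 : MeasurableSet[(@borel C(Y, ℝ) (pointwiseTopology Y)).comap (pull e)]
        (pull e ⁻¹' s) := by
      rw [heq]
      exact ⟨s, hs, rfl⟩
    obtain ⟨s', hs', he⟩ := h1
    rw [hp]
    rwa [← hsurj.preimage_injective he]
  · intro U hU
    have hU' : IsOpen (pull e.symm ⁻¹' U) := hU.preimage (pull e.symm).continuous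
    obtain ⟨G, H, hGH, hEq⟩ := weak_differences _ hU'
    refine ⟨fun n => pull e ⁻¹' (G n), fun n => pull e ⁻¹' (H n), fun n => ?_, ?_⟩
    · rw [hw] at hGH
      rw [weak_eq_induced e]
      exact ⟨⟨G n, (hGH n).1, rfl⟩, ⟨H n, (hGH n).2, rfl⟩⟩
    · have h1 : U = pull e ⁻¹' (pull e.symm ⁻¹' U) := by
        ext f
        simp only [mem_preimage, pull_pull]
      rw [h1, hEq, preimage_iUnion]
      rfl
  · intro A hA
    rw [bp] at hA
    choose B hB hBA using hA
    obtain ⟨f, g, hfg, hf, hg, h⟩ := pointwise_separation B (by rw [hp]; exact hB)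
    have hback : ∀ f : C(Y, ℝ), pull e (pull e.symm f) = f := (pullE e).right_inv
    refine ⟨pull e.symm f, pull e.symm g, fun he => hfg ?_, fun x => hf _, fun x => hg _, ?_⟩
    · rw [← hback f, he, hback g]
    · intro n
      rw [← hBA n, mem_preimage, mem_preimage, hback, hback]
      exact h n

end Pool.Agent.Results.MP_93d788_an.WeakWithoutPointwise
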